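import Pool.Agent.W636.SplitU

/-!
The additivity number of `Split(Ω, Λ)` is at most the cofinality of the ultrafilter number.
-/

set_option autoImplicit false

namespace Pool.Agent.Results.MP_312f56_gt.AddLeCofU

open Pool.Agent.W636.SplitU Pool.Agent.Helper185.Pol

/-- `add(S) ≤ cf(𝔲) ≤ 𝔲`, where `S` is the family of the sets of reals with `Split(Ω, Λ)` and
`𝔲` is the ultrafilter number: some at most `cf(𝔲)` members of `S` have a union outside `S`. -/
theorem result :
    (∃ F : Set (Set ℝ), Cardinal.mk F ≤ uNumber.ord.cof ∧ (∀ Y ∈ F, SplitOL Y) ∧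
      ¬ SplitOL (⋃₀ F)) ∧
    addSplitOL ≤ uNumber.ord.cof ∧ uNumber.ord.cof ≤ uNumber :=
  ⟨exists_family, add_le, Ordinal.cof_ord_le _⟩

end Pool.Agent.Results.MP_312f56_gt.AddLeCofU
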